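import Mathlib

set_option autoImplicit false
set_option linter.unusedVariables false

namespace Pool.Agent.DGAT

open Filter Topology

noncomputable def th (u : ℝ) : ℝ := 3 * max (u - 1) 0 - 3 * max (-u - 1) 0

theorem th_cont : Continuous th := by unfold th; fun_prop

theorem th_mono : Monotone th := by
  intro a b h
  unfold th
  have h1 : max (a - 1) 0 ≤ max (b - 1) 0 := max_le_max_right 0 (by linarith)
  have h2 : max (-b - 1) 0 ≤ max (-a - 1) 0 := max_le_max_right 0 (by linarith)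
  linarith

theorem th_small (u : ℝ) (h : |u| < 1) : th u = 0 := by
  unfold th
  rw [abs_lt] at h
  rw [max_eq_right (by linarith), max_eq_right (by linarith)]
  ring

theorem th_zero : th 0 = 0 := th_small 0 (by simp)
theorem th_two : th 2 = 3 := by unfold th; norm_num
theorem th_neg_two : th (-2) = -3 := by unfold th; norm_num

noncomputable def f (x y : ℝ) : ℝ := Real.exp (-Real.log x - th (Real.log x) - Real.log y / 2)

theorem xf (x y : ℝ) (hx : 0 < x) : x * f x y = Real.exp (-th (Real.log x) - Real.log y / 2) := by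
  have h : x * f x y = Real.exp (Real.log x) * f x y := by rw [Real.exp_log hx]
  rw [h]
  unfold f
  rw [← Real.exp_add]
  congr 1
  ring

theorem pos_all (x : ℕ → ℝ) (h0 : 0 < x 0) (h1 : 0 < x 1)
    (hr : ∀ n : ℕ, x (n + 2) = x (n + 1) * f (x (n + 1)) (x n)) : ∀ n, 0 < x n ∧ 0 < x (n + 1) := by
  intro n
  induction n with
  | zero => exact ⟨h0, h1⟩
  | succ n ih =>
    refine ⟨ih.2, ?_⟩
    rw [show n + 1 + 1 = n + 2 from rfl, hr n]
    exact mul_pos ih.2 (Real.exp_pos _)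

theorem log_rec (x : ℕ → ℝ) (h0 : 0 < x 0) (h1 : 0 < x 1)
    (hr : ∀ n : ℕ, x (n + 2) = x (n + 1) * f (x (n + 1)) (x n)) (n : ℕ) :
    Real.log (x (n + 2)) = -th (Real.log (x (n + 1))) - Real.log (x n) / 2 := by
  rw [hr n, xf _ _ (pos_all x h0 h1 hr n).2, Real.log_exp]

theorem small (x : ℕ → ℝ) (h0 : 0 < x 0) (h1 : 0 < x 1)
    (hr : ∀ n : ℕ, x (n + 2) = x (n + 1) * f (x (n + 1)) (x n)) (r : ℝ) (hr1 : r ≤ 1)
    (hu0 : |Real.log (x 0)| < r) (hu1 : |Real.log (x 1)| < r) :
    ∀ n, |Real.log (x n)| < r ∧ |Real.log (x (n + 1))| < r := by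
  intro n
  induction n with
  | zero => exact ⟨hu0, hu1⟩
  | succ n ih =>
    refine ⟨ih.2, ?_⟩
    rw [show n + 1 + 1 = n + 2 from rfl, log_rec x h0 h1 hr n, th_small _ (ih.2.trans_le hr1)]
    have h2 : |(-0 - Real.log (x n) / 2 : ℝ)| = |Real.log (x n)| / 2 := by
      rw [neg_zero, zero_sub, abs_neg, abs_div]; norm_num
    rw [h2]
    have := ih.1
    have h3 := abs_nonneg (Real.log (x n))
    linarith

theorem decay (x : ℕ → ℝ) (h0 : 0 < x 0) (h1 : 0 < x 1)
    (hr : ∀ n : ℕ, x (n + 2) = x (n + 1) * f (x (n + 1)) (x n))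
    (hu0 : |Real.log (x 0)| < 1) (hu1 : |Real.log (x 1)| < 1) :
    ∀ n, |Real.log (x n)| ≤ 2 * (3 / 4 : ℝ) ^ n ∧ |Real.log (x (n + 1))| ≤ 2 * (3 / 4 : ℝ) ^ (n + 1) := by
  intro n
  induction n with
  | zero => constructor <;> norm_num <;> linarith
  | succ n ih =>
    refine ⟨ih.2, ?_⟩
    have hs := small x h0 h1 hr 1 le_rfl hu0 hu1 n
    rw [show n + 1 + 1 = n + 2 from rfl, log_rec x h0 h1 hr n, th_small _ hs.2]
    have h2 : |(-0 - Real.log (x n) / 2 : ℝ)| = |Real.log (x n)| / 2 := by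
      rw [neg_zero, zero_sub, abs_neg, abs_div]; norm_num
    rw [h2]
    have := ih.1
    have h3 : (0 : ℝ) < (3 / 4 : ℝ) ^ n := by positivity
    rw [pow_succ, pow_succ]
    linarith

theorem log_near (r : ℝ) (hr : 0 < r) : ∃ δ : ℝ, 0 < δ ∧ ∀ x : ℝ, |x - 1| < δ → |Real.log x| < r := by
  have h : ContinuousAt Real.log 1 := Real.continuousAt_log one_ne_zero
  rw [Metric.continuousAt_iff] at h
  obtain ⟨δ, hδ, h⟩ := h r hr
  refine ⟨δ, hδ, fun x hx => ?_⟩
  have := h (show dist x 1 < δ by rwa [Real.dist_eq])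
  rwa [Real.dist_eq, Real.log_one, sub_zero] at this

theorem exp_near (ε : ℝ) (hε : 0 < ε) : ∃ r : ℝ, 0 < r ∧ r ≤ 1 ∧ ∀ u : ℝ, |u| < r → |Real.exp u - 1| < ε := by
  have h : ContinuousAt Real.exp 0 := Real.continuous_exp.continuousAt
  rw [Metric.continuousAt_iff] at h
  obtain ⟨δ, hδ, h⟩ := h ε hε
  refine ⟨min δ 1, lt_min hδ one_pos, min_le_right _ _, fun u hu => ?_⟩
  have := h (show dist u 0 < δ by
    rw [Real.dist_eq, sub_zero]; exact hu.trans_le (min_le_left _ _))
  rwa [Real.dist_eq, Real.exp_zero] at this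

theorem main :
    ¬ (∀ (f : ℝ → ℝ → ℝ) (xbar : ℝ),
      ContinuousOn (fun p : ℝ × ℝ => f p.1 p.2) (Set.Ioi (0:ℝ) ×ˢ Set.Ioi (0:ℝ)) →
      (∀ x y : ℝ, 0 < x → 0 < y → 0 < f x y) →
      (∀ x₁ x₂ y : ℝ, 0 < x₁ → x₁ ≤ x₂ → 0 < y → f x₂ y ≤ f x₁ y) →
      (∀ x y₁ y₂ : ℝ, 0 < x → 0 < y₁ → y₁ < y₂ → f x y₂ < f x y₁) →
      (∀ x₁ x₂ : ℝ, 0 < x₁ → x₁ < x₂ → x₂ * f x₂ x₂ < x₁ * f x₁ x₁) →
      0 < xbar →
      f xbar xbar = 1 →
      (∀ y : ℝ, 0 < y → f y y = 1 → y = xbar) →
      (∀ ε : ℝ, 0 < ε → ∃ δ : ℝ, 0 < δ ∧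
        ∀ x : ℕ → ℝ, 0 < x 0 → 0 < x 1 →
          (∀ n : ℕ, x (n + 2) = x (n + 1) * f (x (n + 1)) (x n)) →
          |x 0 - xbar| + |x 1 - xbar| < δ →
          ∀ n : ℕ, |x n - xbar| < ε) →
      (∃ γ : ℝ, 0 < γ ∧
        ∀ x : ℕ → ℝ, 0 < x 0 → 0 < x 1 →
          (∀ n : ℕ, x (n + 2) = x (n + 1) * f (x (n + 1)) (x n)) →
          |x 0 - xbar| + |x 1 - xbar| < γ →
          Tendsto x atTop (𝓝 xbar)) →
      ∀ x : ℕ → ℝ, 0 < x 0 → 0 < x 1 →
        (∀ n : ℕ, x (n + 2) = x (n + 1) * f (x (n + 1)) (x n)) →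
        Tendsto x atTop (𝓝 xbar)) := by
  intro H
  have key := H f 1
    (by
      have h1 : ContinuousOn (fun p : ℝ × ℝ => Real.log p.1) (Set.Ioi (0:ℝ) ×ˢ Set.Ioi (0:ℝ)) :=
        continuousOn_fst.log (fun p hp => ne_of_gt hp.1)
      have h2 : ContinuousOn (fun p : ℝ × ℝ => Real.log p.2) (Set.Ioi (0:ℝ) ×ˢ Set.Ioi (0:ℝ)) :=
        continuousOn_snd.log (fun p hp => ne_of_gt hp.2)
      exact Real.continuous_exp.comp_continuousOn
        (((h1.neg).sub (th_cont.comp_continuousOn h1)).sub (h2.div_const 2)))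
    (fun x y _ _ => Real.exp_pos _)
    (by
      intro x₁ x₂ y h1 h2 h3
      have h4 := Real.log_le_log h1 h2
      have h5 := th_mono h4
      exact Real.exp_le_exp.2 (by linarith))
    (by
      intro x y₁ y₂ hx h1 h2
      have h4 := Real.log_lt_log h1 h2
      exact Real.exp_lt_exp.2 (by linarith))
    (by
      intro x₁ x₂ h1 h2
      rw [xf _ _ h1, xf _ _ (h1.trans h2)]
      have h4 := Real.log_lt_log h1 h2
      have h5 := th_mono h4.le
      exact Real.exp_lt_exp.2 (by linarith))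
    one_pos
    (by unfold f; rw [Real.log_one, th_zero]; simp)
    (by
      intro y hy h
      have h1 : -Real.log y - th (Real.log y) - Real.log y / 2 = 0 := by
        have : Real.exp (-Real.log y - th (Real.log y) - Real.log y / 2) = 1 := h
        rwa [Real.exp_eq_one_iff] at this
      have h2 : Real.log y = 0 := by
        rcases lt_trichotomy (Real.log y) 0 with h3 | h3 | h3
        · have := th_mono h3.le
          rw [th_zero] at this
          linarith
        · exact h3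
        · have := th_mono h3.le
          rw [th_zero] at this
          linarith
      exact Real.eq_one_of_pos_of_log_eq_zero hy h2)
    (by
      intro ε hε
      obtain ⟨r, hr0, hr1, hr⟩ := exp_near ε hε
      obtain ⟨δ, hδ, hd⟩ := log_near r hr0
      refine ⟨δ, hδ, fun x h0 h1 hrec hlt n => ?_⟩
      have hs := small x h0 h1 hrec r hr1
        (hd _ (by have := abs_nonneg (x 1 - 1); linarith))
        (hd _ (by have := abs_nonneg (x 0 - 1); linarith)) n
      have := hr _ hs.1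
      rwa [Real.exp_log (pos_all x h0 h1 hrec n).1] at this)
    (by
      obtain ⟨δ, hδ, hd⟩ := log_near 1 one_pos
      refine ⟨δ, hδ, fun x h0 h1 hrec hlt => ?_⟩
      have hdec := decay x h0 h1 hrec
        (hd _ (by have := abs_nonneg (x 1 - 1); linarith))
        (hd _ (by have := abs_nonneg (x 0 - 1); linarith))
      have h2 : Tendsto (fun n => Real.log (x n)) atTop (𝓝 0) := by
        refine squeeze_zero_norm (a := fun n => 2 * (3 / 4 : ℝ) ^ n) (fun n => (hdec n).1) ?_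
        have := (tendsto_pow_atTop_nhds_zero_of_lt_one (r := (3 / 4 : ℝ)) (by norm_num)
          (by norm_num)).const_mul 2
        simpa using this
      have h3 := (Real.continuous_exp.tendsto 0).comp h2
      rw [Real.exp_zero] at h3
      refine h3.congr fun n => ?_
      exact Real.exp_log (pos_all x h0 h1 hrec n).1)
    (fun n => Real.exp (2 * (-1) ^ n)) (Real.exp_pos _) (Real.exp_pos _)
    (by
      intro n
      show Real.exp (2 * (-1) ^ (n + 2)) = Real.exp (2 * (-1) ^ (n + 1)) *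
        f (Real.exp (2 * (-1) ^ (n + 1))) (Real.exp (2 * (-1) ^ n))
      rw [xf _ _ (Real.exp_pos _), Real.log_exp, Real.log_exp]
      congr 1
      rcases neg_one_pow_eq_or ℝ n with h | h
      · rw [pow_add, pow_add, h]
        norm_num
        rw [th_neg_two]
        norm_num
      · rw [pow_add, pow_add, h]
        norm_num
        rw [th_two]
        norm_num)
  have h2 : Tendsto (fun k : ℕ => 2 * k) atTop atTop :=
    tendsto_id.const_mul_atTop' (by norm_num)
  have h3 := key.comp h2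
  have h4 : ((fun n : ℕ => Real.exp (2 * (-1) ^ n)) ∘ fun k : ℕ => 2 * k) =
      fun _ => Real.exp 2 := by
    funext k
    simp [pow_mul]
  rw [h4] at h3
  have h5 := tendsto_nhds_unique h3 tendsto_const_nhds
  have h6 : (1 : ℝ) < Real.exp 2 := Real.one_lt_exp_iff.2 (by norm_num)
  linarith

end Pool.Agent.DGAT
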